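import Mathlib
import Pool.Agent.W2helper81.StabCert

/-!
# The tree stabbing number is not monotone

There are a set `S` of nine points in general position in the plane and a subset `S'` of eight of
them such that `S` has a spanning tree with stabbing number at most `3`, while every spanning tree
of `S'` has stabbing number at least `4`. Hence `TREE-STAB (S') > TREE-STAB (S)`.

The nine points are `(-3, 2)`, `(-5, 7)`, `(-3, -2)`, `(-6, -3)`, `(-2, 1)`, `(-5, 2)`, `(3, -2)`,
`(6, 4)` and `(-4, 4)`, and the last point is deleted.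
-/

set_option autoImplicit false

namespace Pool.Agent.Results.MP_3f72ec_co.NotMonotone

open Finset

/-! ### The notions of the statement -/

/-- The Euclidean plane. -/
abbrev Plane := EuclideanSpace ℝ (Fin 2)

/-- `ℓ` is a line of the plane. -/
def IsLine (ℓ : AffineSubspace ℝ Plane) : Prop :=
  (ℓ : Set Plane).Nonempty ∧ Module.finrank ℝ ℓ.direction = 1

/-- The line `ℓ` stabs the closed segment `[p, q]`: their intersection is exactly one point, and
this point lies in the relative interior of the segment. -/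
def Stabs (ℓ : AffineSubspace ℝ Plane) (p q : Plane) : Prop :=
  ∃ z ∈ openSegment ℝ p q, (ℓ : Set Plane) ∩ segment ℝ p q = {z}

/-- The number of edges of the graph `G` on the vertex set `S` (each edge drawn as the straight
segment between its endpoints) which are stabbed by the line `ℓ`. -/
noncomputable def stabCount {S : Finset Plane} (G : SimpleGraph S)
    (ℓ : AffineSubspace ℝ Plane) : ℕ :=
  {e : Sym2 S | e ∈ G.edgeSet ∧ ∃ p q : S, e = s(p, q) ∧ Stabs ℓ p q}.ncard

/-- The stabbing number of the graph `G` on the vertex set `S`: the maximum over all lines of the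
number of stabbed edges. -/
noncomputable def stabNumber {S : Finset Plane} (G : SimpleGraph S) : ℕ :=
  sSup {k | ∃ ℓ : AffineSubspace ℝ Plane, IsLine ℓ ∧ k = stabCount G ℓ}

/-- `TREE-STAB (S)`: the minimum stabbing number over all trees whose vertex set is `S`. -/
noncomputable def treeStab (S : Finset Plane) : ℕ :=
  sInf {k | ∃ G : SimpleGraph S, G.IsTree ∧ k = stabNumber G}

/-! ### Lines and linear functionals -/

lemma line_eq {ℓ : AffineSubspace ℝ Plane} (h : IsLine ℓ) :
    ∃ a b c : ℝ, (a ≠ 0 ∨ b ≠ 0) ∧ ∀ x : Plane, x ∈ ℓ ↔ a * x 0 + b * x 1 = c := by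
  obtain ⟨⟨x0, hx0⟩, hf⟩ := h
  obtain ⟨v, hv, hspan⟩ := finrank_eq_one_iff'.1 hf
  have hv' : (v : Plane) ≠ 0 := by
    intro h0
    exact hv (Subtype.ext h0)
  have hv2 : (v : Plane) 0 ≠ 0 ∨ (v : Plane) 1 ≠ 0 := by
    by_contra hc
    push Not at hc
    apply hv'
    ext i
    fin_cases i
    · simpa using hc.1
    · simpa using hc.2
  refine ⟨-(v : Plane) 1, (v : Plane) 0, -(v : Plane) 1 * x0 0 + (v : Plane) 0 * x0 1, ?_, ?_⟩
  · rcases hv2 with h | h
    · right; exact h
    · left; exact neg_ne_zero.2 h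
  intro x
  have hmem : x ∈ ℓ ↔ x -ᵥ x0 ∈ ℓ.direction :=
    (AffineSubspace.vsub_right_mem_direction_iff_mem hx0 x).symm
  rw [hmem]
  constructor
  · intro hx
    obtain ⟨c, hc⟩ := hspan ⟨x -ᵥ x0, hx⟩
    have h1 : c • (v : Plane) = x -ᵥ x0 := congrArg Subtype.val hc
    have e0 : c * (v : Plane) 0 = x 0 - x0 0 := by
      have := congrArg (fun w : Plane => w 0) h1
      simpa using this
    have e1 : c * (v : Plane) 1 = x 1 - x0 1 := by
      have := congrArg (fun w : Plane => w 1) h1
      simpa using this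
    have hx0' : x 0 = x0 0 + c * (v : Plane) 0 := by linarith
    have hx1' : x 1 = x0 1 + c * (v : Plane) 1 := by linarith
    rw [hx0', hx1']; ring
  · intro hx
    have key : (v : Plane) 0 * (x 1 - x0 1) = (v : Plane) 1 * (x 0 - x0 0) := by linarith
    rcases hv2 with h | h
    · have : x -ᵥ x0 = ((x 0 - x0 0) / (v : Plane) 0) • (v : Plane) := by
        ext i
        fin_cases i
        · simp [h]
        · have : x 1 - x0 1 = (x 0 - x0 0) / (v : Plane) 0 * (v : Plane) 1 := by
            field_simp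
            linarith
          simpa using this
      rw [this]
      exact ℓ.direction.smul_mem _ v.2
    · have : x -ᵥ x0 = ((x 1 - x0 1) / (v : Plane) 1) • (v : Plane) := by
        ext i
        fin_cases i
        · have : x 0 - x0 0 = (x 1 - x0 1) / (v : Plane) 1 * (v : Plane) 0 := by
            field_simp
            linarith
          simpa using this
        · simp [h]
      rw [this]
      exact ℓ.direction.smul_mem _ v.2

lemma exists_line (a b c : ℝ) (hab : a ≠ 0 ∨ b ≠ 0) :
    ∃ ℓ : AffineSubspace ℝ Plane, IsLine ℓ ∧ ∀ x : Plane, x ∈ ℓ ↔ a * x 0 + b * x 1 = c := by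
  have hs : 0 < a ^ 2 + b ^ 2 := by
    rcases hab with h | h
    · have := sq_pos_of_ne_zero h
      positivity
    · have := sq_pos_of_ne_zero h
      positivity
  set v : Plane := !₂[-b, a] with hv
  set p : Plane := !₂[a * c / (a ^ 2 + b ^ 2), b * c / (a ^ 2 + b ^ 2)] with hp
  have hv0 : v ≠ 0 := by
    intro h0
    have e0 := congrArg (fun w : Plane => w 0) h0
    have e1 := congrArg (fun w : Plane => w 1) h0
    simp [hv] at e0 e1
    rcases hab with h | h
    · exact h e1
    · exact h e0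
  refine ⟨AffineSubspace.mk' p (Submodule.span ℝ {v}), ⟨⟨p, AffineSubspace.self_mem_mk' _ _⟩, ?_⟩, ?_⟩
  · rw [AffineSubspace.direction_mk']
    exact finrank_span_singleton hv0
  · intro x
    rw [AffineSubspace.mem_mk', Submodule.mem_span_singleton]
    constructor
    · rintro ⟨t, ht⟩
      have e0 : t * (-b) = x 0 - a * c / (a ^ 2 + b ^ 2) := by
        have := congrArg (fun w : Plane => w 0) ht
        simpa [hv, hp] using this
      have e1 : t * a = x 1 - b * c / (a ^ 2 + b ^ 2) := by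
        have := congrArg (fun w : Plane => w 1) ht
        simpa [hv, hp] using this
      have hx0 : x 0 = a * c / (a ^ 2 + b ^ 2) - t * b := by linarith
      have hx1 : x 1 = b * c / (a ^ 2 + b ^ 2) + t * a := by linarith
      rw [hx0, hx1]
      field_simp
      ring
    · intro hx
      refine ⟨(a * x 1 - b * x 0) / (a ^ 2 + b ^ 2), ?_⟩
      ext i
      fin_cases i
      · have : (a * x 1 - b * x 0) / (a ^ 2 + b ^ 2) * (-b) = x 0 - a * c / (a ^ 2 + b ^ 2) := by
          rw [← hx]
          field_simp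
          ring
        simpa [hv, hp] using this
      · have : (a * x 1 - b * x 0) / (a ^ 2 + b ^ 2) * a = x 1 - b * c / (a ^ 2 + b ^ 2) := by
          rw [← hx]
          field_simp
          ring
        simpa [hv, hp] using this

lemma stabs_of {ℓ : AffineSubspace ℝ Plane} {a b c : ℝ}
    (hℓ : ∀ x : Plane, x ∈ ℓ ↔ a * x 0 + b * x 1 = c) {p q : Plane}
    (hpq : (a * p 0 + b * p 1 - c) * (a * q 0 + b * q 1 - c) < 0) : Stabs ℓ p q := by
  set fp := a * p 0 + b * p 1 - c with hfp
  set fq := a * q 0 + b * q 1 - c with hfq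
  have hne : fp - fq ≠ 0 := by
    intro h
    have : fp = fq := by linarith
    rw [this] at hpq
    nlinarith [mul_self_nonneg fq]
  set t := fp / (fp - fq) with ht
  have ht' : t * (fp - fq) = fp := by
    rw [ht]; field_simp
  have hD : 0 < (fp - fq) ^ 2 := sq_pos_of_ne_zero hne
  have ht0 : 0 < t := by
    have h1 : t * (fp - fq) ^ 2 = fp * (fp - fq) := by
      calc t * (fp - fq) ^ 2 = (t * (fp - fq)) * (fp - fq) := by ring
        _ = _ := by rw [ht']
    have h2 : 0 < fp * (fp - fq) := by nlinarith [mul_self_nonneg fp]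
    by_contra hc
    push Not at hc
    nlinarith
  have ht1 : t < 1 := by
    have h1 : (1 - t) * (fp - fq) ^ 2 = -fq * (fp - fq) := by
      calc (1 - t) * (fp - fq) ^ 2 = (fp - fq) ^ 2 - (t * (fp - fq)) * (fp - fq) := by ring
        _ = (fp - fq) ^ 2 - fp * (fp - fq) := by rw [ht']
        _ = _ := by ring
    have h2 : 0 < -fq * (fp - fq) := by nlinarith [mul_self_nonneg fq]
    by_contra hc
    push Not at hc
    nlinarith
  refine ⟨(1 - t) • p + t • q, ⟨1 - t, t, by linarith, ht0, by ring, rfl⟩, ?_⟩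
  ext x
  simp only [Set.mem_inter_iff, SetLike.mem_coe, Set.mem_singleton_iff]
  constructor
  · rintro ⟨h1, h2⟩
    obtain ⟨u, w, hu, hw, huw, rfl⟩ := h2
    rw [hℓ] at h1
    have h3 : u * fp + w * fq = 0 := by
      have : a * (u • p + w • q) 0 + b * (u • p + w • q) 1 = u * (a * p 0 + b * p 1) + w * (a * q 0 + b * q 1) := by
        simp
        ring
      rw [this] at h1
      rw [hfp, hfq]
      have : u * (a * p 0 + b * p 1 - c) + w * (a * q 0 + b * q 1 - c)
          = u * (a * p 0 + b * p 1) + w * (a * q 0 + b * q 1) - (u + w) * c := by ring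
      rw [this, huw, h1]; ring
    have hu' : u = 1 - w := by linarith
    rw [hu'] at h3
    have hw' : w = t := by
      have : (w - t) * (fp - fq) = 0 := by
        have : (w - t) * (fp - fq) = w * (fp - fq) - t * (fp - fq) := by ring
        rw [this, ht']; linarith
      rcases mul_eq_zero.1 this with h | h
      · linarith
      · exact absurd h hne
    rw [hu', hw']
  · rintro rfl
    refine ⟨?_, ⟨1 - t, t, by linarith, ht0.le, by ring, rfl⟩⟩
    rw [hℓ]
    have : a * ((1 - t) • p + t • q) 0 + b * ((1 - t) • p + t • q) 1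
        = (1 - t) * (a * p 0 + b * p 1) + t * (a * q 0 + b * q 1) := by
      simp
      ring
    rw [this]
    have h4 : (1 - t) * fp + t * fq = 0 := by
      have : (1 - t) * fp + t * fq = fp - t * (fp - fq) := by ring
      rw [this, ht']; ring
    rw [hfp, hfq] at h4
    linarith

lemma of_stabs {ℓ : AffineSubspace ℝ Plane} {a b c : ℝ}
    (hℓ : ∀ x : Plane, x ∈ ℓ ↔ a * x 0 + b * x 1 = c) {p q : Plane} (hne : p ≠ q)
    (h : Stabs ℓ p q) : (a * p 0 + b * p 1 - c) * (a * q 0 + b * q 1 - c) < 0 := by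
  obtain ⟨z, hz, hz2⟩ := h
  obtain ⟨u, w, hu, hw, huw, rfl⟩ := hz
  have hmem : u • p + w • q ∈ (ℓ : Set Plane) ∩ segment ℝ p q := by rw [hz2]; rfl
  have h1 := (hℓ _).1 hmem.1
  set fp := a * p 0 + b * p 1 - c with hfp
  set fq := a * q 0 + b * q 1 - c with hfq
  have h3 : u * fp + w * fq = 0 := by
    have : a * (u • p + w • q) 0 + b * (u • p + w • q) 1
        = u * (a * p 0 + b * p 1) + w * (a * q 0 + b * q 1) := by
      simp
      ring
    rw [this] at h1
    rw [hfp, hfq]
    have : u * (a * p 0 + b * p 1 - c) + w * (a * q 0 + b * q 1 - c)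
        = u * (a * p 0 + b * p 1) + w * (a * q 0 + b * q 1) - (u + w) * c := by ring
    rw [this, huw, h1]; ring
  have hp : fp ≠ 0 := by
    intro h0
    have hpm : p ∈ (ℓ : Set Plane) ∩ segment ℝ p q := by
      refine ⟨?_, left_mem_segment ℝ p q⟩
      exact (hℓ p).2 (by rw [hfp] at h0; linarith)
    rw [hz2, Set.mem_singleton_iff] at hpm
    apply hne
    have : w • q = w • p := by
      have h5 : p = u • p + w • q := hpm
      have h6 : (1 - u) • p = w • q := by
        rw [sub_smul, one_smul]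
        nth_rewrite 1 [h5]
        simp
      rw [← h6]
      congr 1
      linarith
    exact (smul_right_injective Plane hw.ne' this).symm
  have hfpq : fq = -(u / w) * fp := by
    field_simp
    linarith
  rw [hfpq]
  have : fp * (-(u / w) * fp) = -((u / w) * fp ^ 2) := by ring
  rw [this]
  have : 0 < (u / w) * fp ^ 2 := by positivity
  linarith

/-! ### The points -/

/-- first coordinates -/
def X : Fin 9 → ℤ := ![-3, -5, -3, -6, -2, -5, 3, 6, -4]

/-- second coordinates -/
def Y : Fin 9 → ℤ := ![2, 7, -2, -3, 1, 2, -2, 4, 4]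

/-- the nine points -/
noncomputable def P (i : Fin 9) : Plane := !₂[(X i : ℝ), (Y i : ℝ)]

@[simp] lemma P0 (i : Fin 9) : P i 0 = (X i : ℝ) := by simp [P]
@[simp] lemma P1 (i : Fin 9) : P i 1 = (Y i : ℝ) := by simp [P]

lemma XY_inj : ∀ i j : Fin 9, X i = X j → Y i = Y j → i = j := by decide

lemma P_inj : Function.Injective P := by
  intro i j h
  have h0 := congrArg (fun w : Plane => w 0) h
  have h1 := congrArg (fun w : Plane => w 1) h
  simp only [P0, P1] at h0 h1
  exact XY_inj i j (by exact_mod_cast h0) (by exact_mod_cast h1)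

/-- the first eight points -/
noncomputable def P8 (i : Fin 8) : Plane := P i.castSucc

lemma P8_inj : Function.Injective P8 := fun _ _ h => Fin.castSucc_injective _ (P_inj h)

/-- the configuration of nine points -/
noncomputable def S : Finset Plane := univ.map ⟨P, P_inj⟩

/-- the configuration of eight points -/
noncomputable def S' : Finset Plane := univ.map ⟨P8, P8_inj⟩

lemma sub : S' ⊆ S := by
  intro x hx
  rw [S', mem_map] at hx
  obtain ⟨i, _, rfl⟩ := hx
  rw [S, mem_map]
  exact ⟨i.castSucc, mem_univ _, rfl⟩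

/-! ### Upper bound for `S` -/

/-- numbering of the nine points -/
noncomputable def φ : Fin 9 ≃ S :=
  Equiv.ofBijective (fun i => ⟨P i, mem_map.2 ⟨i, mem_univ _, rfl⟩⟩)
    ⟨fun i j h => P_inj (congrArg Subtype.val h), fun x => by
      obtain ⟨i, _, hi⟩ := mem_map.1 x.2
      exact ⟨i, Subtype.ext hi⟩⟩

@[simp] lemma φ_val (i : Fin 9) : ((φ i : S) : Plane) = P i := rfl

/-- the edges of the tree on the nine points -/
def EL : Fin 8 → Fin 9 × Fin 9 :=
  ![(0, 4), (0, 8), (1, 8), (2, 3), (6, 7), (3, 5), (5, 8), (7, 8)]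

/-- the tree on the nine points -/
def T9 : SimpleGraph (Fin 9) where
  Adj u v := ∃ k, EL k = (u, v) ∨ EL k = (v, u)
  symm := ⟨fun u v ⟨k, h⟩ => ⟨k, h.symm⟩⟩
  loopless := ⟨fun u ⟨k, h⟩ => by
    have : ∀ k u, ¬ (EL k = (u, u) ∨ EL k = (u, u)) := by decide
    exact this k u h⟩

lemma T9_conn : T9.Connected := by
  have h : ∀ k, T9.Reachable (EL k).1 (EL k).2 := fun k =>
    SimpleGraph.Adj.reachable (show T9.Adj _ _ from ⟨k, Or.inl rfl⟩)
  have h08 : T9.Reachable 0 8 := h 1
  have h18 : T9.Reachable 1 8 := h 2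
  have h58 : T9.Reachable 5 8 := h 6
  have h78 : T9.Reachable 7 8 := h 7
  have h48 : T9.Reachable 4 8 := (h 0).symm.trans h08
  have h38 : T9.Reachable 3 8 := (h 5).trans h58
  have h28 : T9.Reachable 2 8 := (h 3).trans h38
  have h68 : T9.Reachable 6 8 := (h 4).trans h78
  have hall : ∀ i, T9.Reachable i 8 := by
    intro i
    fin_cases i
    · exact h08
    · exact h18
    · exact h28
    · exact h38
    · exact h48
    · exact h58
    · exact h68
    · exact h78
    · exact SimpleGraph.Reachable.refl _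
  have : Nonempty (Fin 9) := ⟨0⟩
  exact SimpleGraph.Connected.mk fun u v => (hall u).trans (hall v).symm

/-- Radon partitions: no half-plane contains the points of the first list while its complement
contains the points of the second list. -/
def pats : List (List ℕ × List ℕ) :=
  [([4, 8], [0, 1]), ([0, 1], [4, 8]), ([8], [1, 4, 5]), ([1, 4, 5], [8]), ([1, 3, 4], [5]), 
  ([5], [1, 3, 4]), ([1, 2], [0, 3]), ([0, 3], [1, 2]), ([1, 6], [4, 7]), ([4, 7], [1, 6]), 
  ([3, 7], [4, 6]), ([4, 6], [3, 7]), ([0, 2], [4, 5]), ([4, 5], [0, 2]), ([5], [1, 3, 8]), 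
  ([1, 3, 8], [5]), ([4, 8], [5, 7]), ([5, 7], [4, 8]), ([0], [3, 6, 8]), ([3, 6, 8], [0]), 
  ([0, 6], [1, 4]), ([1, 4], [0, 6]), ([3, 4], [0, 2]), ([0, 2], [3, 4]), ([0, 1, 2], [8]), 
  ([8], [0, 1, 2]), ([0], [1, 3, 6]), ([1, 3, 6], [0])]

/-- numbers of the edges of the tree crossing the bipartition `m` -/
def cut9 (m : ℕ) : ℕ :=
  [(0, 4), (0, 8), (1, 8), (2, 3), (6, 7), (3, 5), (5, 8), (7, 8)].countP
    (fun p : ℕ × ℕ => m.testBit p.1 != m.testBit p.2)

lemma cut9_le : ∀ m : Fin 512, (pats.any fun p => p.1.all (fun i => m.1.testBit i) &&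
    p.2.all (fun i => !m.1.testBit i)) = true ∨ cut9 m.1 ≤ 3 := by
  decide +kernel

/-- the value of the functional at the point number `i` -/
def val (a b c : ℝ) (i : Fin 9) : ℝ := a * (X i : ℝ) + b * (Y i : ℝ) - c

lemma radon (a b c : ℝ) (m : ℕ) (hm : ∀ i : Fin 9, m.testBit i.1 = true ↔ 0 ≤ val a b c i) :
    (pats.any fun p => p.1.all (fun i => m.testBit i) && p.2.all (fun i => !m.testBit i))
      = false := by
  have e0 : m.testBit 0 = true ↔ 0 ≤ a * (-3) + b * 2 - c := by
    simpa [val, X, Y] using hm 0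
  have e1 : m.testBit 1 = true ↔ 0 ≤ a * (-5) + b * 7 - c := by
    simpa [val, X, Y] using hm 1
  have e2 : m.testBit 2 = true ↔ 0 ≤ a * (-3) + b * (-2) - c := by
    simpa [val, X, Y] using hm 2
  have e3 : m.testBit 3 = true ↔ 0 ≤ a * (-6) + b * (-3) - c := by
    simpa [val, X, Y] using hm 3
  have e4 : m.testBit 4 = true ↔ 0 ≤ a * (-2) + b * 1 - c := by
    simpa [val, X, Y] using hm 4
  have e5 : m.testBit 5 = true ↔ 0 ≤ a * (-5) + b * 2 - c := by
    simpa [val, X, Y] using hm 5
  have e6 : m.testBit 6 = true ↔ 0 ≤ a * 3 + b * (-2) - c := by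
    simpa [val, X, Y] using hm 6
  have e7 : m.testBit 7 = true ↔ 0 ≤ a * 6 + b * 4 - c := by
    simpa [val, X, Y] using hm 7
  have e8 : m.testBit 8 = true ↔ 0 ≤ a * (-4) + b * 4 - c := by
    simpa [val, X, Y] using hm 8
  rw [← Bool.not_eq_true, List.any_eq_true]
  rintro ⟨p, hp, h⟩
  rw [Bool.and_eq_true, List.all_eq_true, List.all_eq_true] at h
  obtain ⟨h1, h2⟩ := h
  have h2 : ∀ x ∈ p.2, ¬ (m.testBit x = true) := by
    intro x hx
    have := h2 x hx
    simpa using this
  simp only [pats, List.mem_cons, List.not_mem_nil, or_false] at hp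
  rcases hp with rfl | rfl | rfl | rfl | rfl | rfl | rfl | rfl | rfl | rfl | rfl | rfl | rfl | rfl |
    rfl | rfl | rfl | rfl | rfl | rfl | rfl | rfl | rfl | rfl | rfl | rfl | rfl | rfl
  all_goals
    simp only [List.mem_cons, List.not_mem_nil, or_false, forall_eq_or_imp, forall_eq, e0, e1, e2,
      e3, e4, e5, e6, e7, e8, not_le] at h1 h2
    linarith

lemma exists_mask (s : Fin 9 → Bool) : ∃ m : Fin 512, ∀ i : Fin 9, m.1.testBit i.1 = s i := by
  refine ⟨⟨Nat.ofBits s, Nat.ofBits_lt_two_pow s⟩, fun i => ?_⟩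
  rw [Nat.testBit_ofBits_lt s i.1 i.2]

lemma cross_card (m : Fin 512) : (univ.filter (fun k : Fin 8 =>
    m.1.testBit (EL k).1.1 ≠ m.1.testBit (EL k).2.1)).card = cut9 m.1 := by
  revert m
  decide +kernel

lemma upper_line (G : SimpleGraph S) (hG : ∀ u v : S, G.Adj u v → T9.Adj (φ.symm u) (φ.symm v))
    (ℓ : AffineSubspace ℝ Plane) (hℓ : IsLine ℓ) : stabCount G ℓ ≤ 3 := by
  classical
  obtain ⟨a, b, c, _, hmem⟩ := line_eq hℓ
  obtain ⟨m, hm⟩ := exists_mask (fun i => decide (0 ≤ val a b c i))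
  have hm' : ∀ i : Fin 9, m.1.testBit i.1 = true ↔ 0 ≤ val a b c i := by
    intro i
    rw [hm i, decide_eq_true_eq]
  have hcut : cut9 m.1 ≤ 3 := by
    rcases cut9_le m with h | h
    · rw [radon a b c m.1 hm'] at h
      exact absurd h (by simp)
    · exact h
  rw [← cross_card] at hcut
  refine le_trans ?_ hcut
  set F : Finset (Fin 8) := univ.filter (fun k : Fin 8 =>
    m.1.testBit (EL k).1.1 ≠ m.1.testBit (EL k).2.1) with hF
  have hsub : {e : Sym2 S | e ∈ G.edgeSet ∧ ∃ p q : S, e = s(p, q) ∧ Stabs ℓ p q} ⊆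
      ((F.image (fun k => s(φ (EL k).1, φ (EL k).2)) : Finset (Sym2 S)) : Set (Sym2 S)) := by
    rintro e ⟨he, p, q, rfl, hst⟩
    have hadj : G.Adj p q := he
    have hne : (p : Plane) ≠ q := fun h => hadj.ne (Subtype.ext h)
    have hneg := of_stabs hmem hne hst
    have hT := hG p q hadj
    obtain ⟨i, rfl⟩ := φ.surjective p
    obtain ⟨j, rfl⟩ := φ.surjective q
    rw [Equiv.symm_apply_apply, Equiv.symm_apply_apply] at hT
    simp only [φ_val, P0, P1] at hneg
    have hbits : m.1.testBit i.1 ≠ m.1.testBit j.1 := by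
      intro hb
      have h1 := hm' i
      have h2 := hm' j
      rw [hb] at h1
      have h3 : (0 ≤ val a b c i) ↔ (0 ≤ val a b c j) := h1.symm.trans h2
      have h4 : val a b c i * val a b c j < 0 := hneg
      by_cases h5 : 0 ≤ val a b c i
      · have h6 := h3.1 h5
        have := mul_nonneg h5 h6
        linarith
      · have h6 : ¬ 0 ≤ val a b c j := fun h => h5 (h3.2 h)
        push Not at h5 h6
        have := mul_pos_of_neg_of_neg h5 h6
        linarith
    obtain ⟨k, hk | hk⟩ := hT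
    · rw [mem_coe, mem_image]
      refine ⟨k, ?_, ?_⟩
      · rw [hF, mem_filter]
        exact ⟨mem_univ _, by rw [hk]; exact hbits⟩
      · rw [hk]
    · rw [mem_coe, mem_image]
      refine ⟨k, ?_, ?_⟩
      · rw [hF, mem_filter]
        exact ⟨mem_univ _, by rw [hk]; exact hbits.symm⟩
      · rw [hk]
        exact Sym2.eq_swap
  calc stabCount G ℓ ≤ ((F.image (fun k => s(φ (EL k).1, φ (EL k).2)) : Finset (Sym2 S)) :
        Set (Sym2 S)).ncard := Set.ncard_le_ncard hsub (Finset.finite_toSet _)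
    _ = (F.image (fun k => s(φ (EL k).1, φ (EL k).2))).card := Set.ncard_coe_finset _
    _ ≤ F.card := card_image_le

lemma upper : treeStab S ≤ 3 := by
  set G0 : SimpleGraph S := T9.comap φ.symm with hG0
  have hconn : G0.Connected := by
    have e : G0 ≃g T9 := ⟨φ.symm, by intro a b; rfl⟩
    exact (SimpleGraph.Iso.connected_iff e).2 T9_conn
  obtain ⟨T, hTle, hT⟩ := hconn.exists_isTree_le
  have h1 : stabNumber T ≤ 3 := by
    unfold stabNumber
    apply csSup_le'
    rintro k ⟨ℓ, hℓ, rfl⟩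
    exact upper_line T (fun u v h => hTle h) ℓ hℓ
  exact le_trans (Nat.sInf_le ⟨T, hT, rfl⟩) h1

/-! ### Lower bound for `S'` -/

open Pool.Agent.W2helper81.StabCert

/-- The `28` lines: `(m, a, b, c)` stands for the line `a x + b y = c`; the points `i` with
`a x + b y > c` are those with `m.testBit i`. -/
def lins : List (ℕ × ℤ × ℤ × ℤ) :=
  [(2, -1, 1, 9), (8, -1, -1, 7), (10, -7, 1, 38), (12, -1, -1, 4), (34, -1, 1, 6), 
  (40, -3, -1, 12), (42, -1, 0, 4), (44, -1, -1, 2), (46, -4, -1, 11), (60, -4, -6, 1), 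
  (64, 1, -1, 3), (68, 2, -4, 1), (72, 1, -5, 8), (76, 0, -1, 0), (92, 0, -2, -3), 
  (108, -2, -4, 1), (124, -1, -3, -2), (128, 1, 0, 4), (130, 0, 1, 3), (162, -1, 6, 16), 
  (192, 1, -1, 0), (194, 1, 1, 0), (196, 1, -1, -2), (204, 1, -2, -3), (208, 2, 0, -5), 
  (210, 4, 2, -7), (212, 2, -1, -7), (220, 1, -1, -4)]

lemma lins_masks : ∀ m ∈ masks, ∃ l ∈ lins, l.1 = m := by decide

lemma lins_spec : ∀ l ∈ lins, (l.2.1 ≠ 0 ∨ l.2.2.1 ≠ 0) ∧ ∀ i : Fin 8,
    (l.1.testBit i.1 = true ∧ 0 < l.2.1 * X i.castSucc + l.2.2.1 * Y i.castSucc - l.2.2.2) ∨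
    (l.1.testBit i.1 = false ∧ l.2.1 * X i.castSucc + l.2.2.1 * Y i.castSucc - l.2.2.2 < 0) := by
  decide +kernel

/-- numbering of the eight points -/
noncomputable def ψ : Fin 8 ≃ S' :=
  Equiv.ofBijective (fun i => ⟨P8 i, mem_map.2 ⟨i, mem_univ _, rfl⟩⟩)
    ⟨fun i j h => P8_inj (congrArg Subtype.val h), fun x => by
      obtain ⟨i, _, hi⟩ := mem_map.1 x.2
      exact ⟨i, Subtype.ext hi⟩⟩

@[simp] lemma ψ_val (i : Fin 8) : ((ψ i : S') : Plane) = P i.castSucc := rfl

lemma edges_inj : ∀ e ∈ edges, ∀ e' ∈ edges, s(vtx (e / 8), vtx (e % 8)) =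
    s(vtx (e' / 8), vtx (e' % 8)) → e = e' := by decide

lemma edges_nodup : edges.Nodup := by decide

lemma edges_lt : ∀ e ∈ edges, e / 8 < 8 := by decide

lemma lower_graph (G : SimpleGraph S') (hG : G.Connected) : 4 ≤ stabNumber G := by
  classical
  set H : SimpleGraph (Fin 8) := G.comap ψ with hH
  have hconn : H.Connected := by
    have e : H ≃g G := ⟨ψ, by intro a b; rfl⟩
    exact (SimpleGraph.Iso.connected_iff e).2 hG
  obtain ⟨m, hm, hcount⟩ := main H hconn
  obtain ⟨⟨m', a, b, c⟩, hl, rfl⟩ := lins_masks m hm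
  obtain ⟨hab, hspec⟩ := lins_spec _ hl
  simp only at hab hspec hcount
  obtain ⟨ℓ, hℓ, hmem⟩ := exists_line (a : ℝ) (b : ℝ) (c : ℝ) (by
    rcases hab with h | h
    · left; exact_mod_cast h
    · right; exact_mod_cast h)
  have hfin : {k | ∃ ℓ : AffineSubspace ℝ Plane, IsLine ℓ ∧ k = stabCount G ℓ}.Finite := by
    apply Set.Finite.subset (Set.finite_Iic (Set.univ : Set (Sym2 S')).ncard)
    rintro k ⟨ℓ, _, rfl⟩
    exact Set.ncard_le_ncard (Set.subset_univ _) (Set.toFinite _)
  refine le_trans ?_ (le_csSup hfin.bddAbove ⟨ℓ, hℓ, rfl⟩)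
  set E : Finset ℕ := edges.toFinset.filter (fun e => AdjE H e ∧ cross m' e = true) with hE
  have hcard : 4 ≤ E.card := by
    have h1 : E = (edges.filter (fun e => decide (AdjE H e) && cross m' e)).toFinset := by
      ext e
      rw [hE]
      simp
    rw [h1, List.toFinset_card_of_nodup (edges_nodup.filter _), ← List.countP_eq_length_filter]
    exact hcount
  refine le_trans hcard ?_
  have hinj : Set.InjOn (fun e : ℕ => s(ψ (vtx (e / 8)), ψ (vtx (e % 8)))) (E : Set ℕ) := by
    intro e he e' he' h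
    rw [mem_coe, hE, mem_filter, List.mem_toFinset] at he he'
    apply edges_inj e he.1 e' he'.1
    apply Sym2.map.injective ψ.injective
    simpa using h
  have hsub : ((E.image (fun e : ℕ => s(ψ (vtx (e / 8)), ψ (vtx (e % 8))))
      : Finset (Sym2 S')) : Set (Sym2 S')) ⊆
      {e : Sym2 S' | e ∈ G.edgeSet ∧ ∃ p q : S', e = s(p, q) ∧ Stabs ℓ p q} := by
    intro x hx
    rw [mem_coe, mem_image] at hx
    obtain ⟨e, he, rfl⟩ := hx
    rw [hE, mem_filter] at he
    obtain ⟨hedge, hadj, hcr⟩ := he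
    refine ⟨hadj, _, _, rfl, ?_⟩
    apply stabs_of hmem
    simp only [ψ_val, P0, P1]
    have hu := hspec (vtx (e / 8))
    have hv := hspec (vtx (e % 8))
    have hcr' : m'.testBit (vtx (e / 8)).1 ≠ m'.testBit (vtx (e % 8)).1 := by
      have h1 : (vtx (e / 8)).1 = e / 8 :=
        Nat.mod_eq_of_lt (edges_lt e (List.mem_toFinset.1 hedge))
      have h2 : (vtx (e % 8)).1 = e % 8 := Nat.mod_eq_of_lt (Nat.mod_lt _ (by norm_num))
      rw [h1, h2]
      simpa [cross] using hcr
    rcases hu with ⟨h1, h2⟩ | ⟨h1, h2⟩ <;> rcases hv with ⟨h3, h4⟩ | ⟨h3, h4⟩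
    · exact absurd (h1.trans h3.symm) hcr'
    · have h2' : (0 : ℝ) < a * X (vtx (e / 8)).castSucc + b * Y (vtx (e / 8)).castSucc - c := by
        exact_mod_cast h2
      have h4' : (a * X (vtx (e % 8)).castSucc + b * Y (vtx (e % 8)).castSucc - c : ℝ) < 0 := by
        exact_mod_cast h4
      exact mul_neg_of_pos_of_neg h2' h4'
    · have h2' : (a * X (vtx (e / 8)).castSucc + b * Y (vtx (e / 8)).castSucc - c : ℝ) < 0 := by
        exact_mod_cast h2
      have h4' : (0 : ℝ) < a * X (vtx (e % 8)).castSucc + b * Y (vtx (e % 8)).castSucc - c := by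
        exact_mod_cast h4
      exact mul_neg_of_neg_of_pos h2' h4'
    · exact absurd (h1.trans h3.symm) hcr'
  calc E.card = (E.image (fun e : ℕ => s(ψ (vtx (e / 8)), ψ (vtx (e % 8))))).card :=
        (card_image_of_injOn hinj).symm
    _ = ((E.image (fun e : ℕ => s(ψ (vtx (e / 8)), ψ (vtx (e % 8))))
      : Finset (Sym2 S')) : Set (Sym2 S')).ncard := (Set.ncard_coe_finset _).symm
    _ ≤ stabCount G ℓ := Set.ncard_le_ncard hsub (Set.toFinite _)

lemma lower : 4 ≤ treeStab S' := by
  have : Nonempty S' := ⟨ψ 0⟩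
  have hne : {k | ∃ G : SimpleGraph S', G.IsTree ∧ k = stabNumber G}.Nonempty := by
    obtain ⟨T, _, hT⟩ := (SimpleGraph.connected_top (V := S')).exists_isTree_le
    exact ⟨_, T, hT, rfl⟩
  refine le_csInf hne ?_
  rintro k ⟨G, hG, rfl⟩
  exact lower_graph G hG.connected

/-- `TREE-STAB` is not monotone: there are a configuration `S` of nine points and a subconfiguration
`S'` of eight of its points with `TREE-STAB (S) ≤ 3` and `TREE-STAB (S') ≥ 4`. -/
theorem result : ∃ S S' : Finset Plane, S'.Nonempty ∧ S' ⊆ S ∧ S.card = 9 ∧ S'.card = 8 ∧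
    treeStab S ≤ 3 ∧ 4 ≤ treeStab S' := by
  refine ⟨S, S', ⟨P8 0, ?_⟩, sub, ?_, ?_, upper, lower⟩
  · exact mem_map.2 ⟨0, mem_univ _, rfl⟩
  · simp [S]
  · simp [S']

end Pool.Agent.Results.MP_3f72ec_co.NotMonotone
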